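import Mathlib

set_option autoImplicit false

/-!
# Graphs of average degree exactly `2 k - 2` have property `M(k)`

Let `G` be a graph with `|E| = (k - 1) |V|` and suppose that `G` has exactly one proper colouring
`c` from some lists of size `k`.  Let `p` be a prime divisor of `k`, and let the colours be
distinct elements of a domain of characteristic `p`.  The graph polynomial
`P = ∏ (x_u - x_v)` has degree `(k - 1) |V|` and vanishes at all points of the grid of lists except
at `c`, hence by the combinatorial Nullstellensatz its coefficient at `∏ x_v ^ (k - 1)` is not zero.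
On the other hand `P` is invariant under translations, so `∑_u ∂P/∂x_u = 0`; looking at the
monomial `∏ x_v ^ (k - 1) / x_w` and using `k = 0` in the ring one finds that this coefficient is
zero, a contradiction.
-/

namespace Pool.Agent.Results.MP_e14bb7_co.AverageDegree

open MvPolynomial

/-- `c` is a proper colouring of `G` from the lists `S`. -/
def IsListColouring {V C : Type*} (G : SimpleGraph V) (S : V → Finset C) (c : V → C) : Prop :=
  (∀ v, c v ∈ S v) ∧ ∀ u v, G.Adj u v → c u ≠ c v

/-- `G` is uniquely `k`-list colourable (with colours from the type `C`): for some lists of size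
exactly `k` there is exactly one proper colouring from the lists. -/
def UniquelyListColourable {V : Type*} (C : Type*) (G : SimpleGraph V) (k : ℕ) : Prop :=
  ∃ S : V → Finset C, (∀ v, (S v).card = k) ∧ ∃! c : V → C, IsListColouring G S c

/-- The average degree `2 |E| / |V|`. -/
noncomputable def averageDegree {V : Type*} [Fintype V] (G : SimpleGraph V) : ℚ :=
  2 * (G.edgeSet.ncard : ℚ) / (Fintype.card V : ℚ)

section Algebra

variable {V : Type*} [Fintype V] [DecidableEq V] {R : Type*} [CommRing R]

/-- The product of `x_v - y` over all `v` and all `y` in the list of `v` different from `c v`. -/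
noncomputable def Q (S : V → Finset R) [DecidableEq R] (c : V → R) : MvPolynomial V R :=
  ∏ v, ∏ y ∈ (S v).erase (c v), (X v - C y)

omit [DecidableEq V] in
theorem coeff_Q [IsDomain R] [DecidableEq R] (m : V →₀ ℕ)
    (S : V → Finset R) (hS : ∀ v, (S v).card = m v + 1) (c : V → R) (hc : ∀ v, c v ∈ S v) :
    coeff m (Q S c) = 1 := by
  let _ : LinearOrder V := WellOrderingRel.isWellOrder.linearOrder
  have hm : MonomialOrder.degLex.Monic (Q S c) :=
    MonomialOrder.Monic.prod (fun v _ => MonomialOrder.Monic.prod
      (fun y _ => MonomialOrder.monic_X_sub_C _ _ _))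
  have hd : MonomialOrder.degLex.degree (Q S c) = m := by
    unfold Q
    rw [MonomialOrder.degree_prod_of_regular]
    · have : ∀ v ∈ (Finset.univ : Finset V),
          MonomialOrder.degLex.degree (∏ y ∈ (S v).erase (c v), (X v - C y : MvPolynomial V R))
            = Finsupp.single v (m v) := by
        intro v _
        rw [MonomialOrder.degree_prod_of_regular]
        · rw [Finset.sum_congr rfl (fun y _ => MonomialOrder.degree_X_sub_C _ v y)]
          rw [Finset.sum_const, Finset.card_erase_of_mem (hc v), hS v]
          simp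
        · intro y _
          rw [MonomialOrder.monic_X_sub_C]
          exact isRegular_one
      rw [Finset.sum_congr rfl this]
      exact Finsupp.univ_sum_single m
    · intro v _
      have := MonomialOrder.Monic.prod (m := MonomialOrder.degLex (σ := V)) (s := (S v).erase (c v))
        (P := fun y => (X v - C y : MvPolynomial V R))
        (fun y _ => MonomialOrder.monic_X_sub_C _ _ _)
      rw [this]
      exact isRegular_one
  have h := hm
  unfold MonomialOrder.Monic MonomialOrder.leadingCoeff at h
  rw [hd] at h
  exact h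

omit [DecidableEq V] in
theorem coeff_ne_zero [IsDomain R] [DecidableEq R] (f : MvPolynomial V R) (m : V →₀ ℕ)
    (S : V → Finset R) (hS : ∀ v, (S v).card = m v + 1) (hdeg : f.totalDegree ≤ m.degree)
    (c : V → R) (hc : ∀ v, c v ∈ S v)
    (hf : ∀ s : V → R, (∀ v, s v ∈ S v) → s ≠ c → eval s f = 0) (hfc : eval c f ≠ 0) :
    coeff m f ≠ 0 := by
  intro h0
  set A : R := ∏ v, ∏ y ∈ (S v).erase (c v), (c v - y) with hA
  have hA0 : A ≠ 0 := by
    rw [hA]
    refine Finset.prod_ne_zero_iff.2 (fun v _ => Finset.prod_ne_zero_iff.2 (fun y hy => ?_))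
    exact sub_ne_zero.2 (Finset.ne_of_mem_erase hy).symm
  have hQdeg : (Q S c).totalDegree ≤ m.degree := by
    unfold Q
    refine le_trans (totalDegree_finsetProd _ _) ?_
    rw [Finsupp.degree_eq_sum]
    refine Finset.sum_le_sum (fun v _ => ?_)
    refine le_trans (totalDegree_finsetProd _ _) ?_
    refine le_trans (Finset.sum_le_card_nsmul _ _ 1 (fun y _ => ?_)) ?_
    · refine le_trans (totalDegree_sub _ _) ?_
      simp
    · rw [Finset.card_erase_of_mem (hc v), hS v]
      simp
  have hQeval : ∀ s : V → R, eval s (Q S c) = ∏ v, ∏ y ∈ (S v).erase (c v), (s v - y) := by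
    intro s
    unfold Q
    simp [map_prod]
  set g : MvPolynomial V R := C A * f - C (eval c f) * Q S c with hg
  have hgm : coeff m g = - eval c f := by
    rw [hg, coeff_sub, coeff_C_mul, coeff_C_mul, h0, coeff_Q m S hS c hc]
    ring
  have hgm0 : coeff m g ≠ 0 := by
    rw [hgm]
    exact neg_ne_zero.2 hfc
  have hgdeg : g.totalDegree ≤ m.degree := by
    refine le_trans (totalDegree_sub _ _) (max_le ?_ ?_)
    · refine le_trans (totalDegree_mul _ _) ?_
      rw [totalDegree_C]
      simpa using hdeg
    · refine le_trans (totalDegree_mul _ _) ?_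
      rw [totalDegree_C]
      simpa using hQdeg
  have hgdeg' : g.totalDegree = m.degree := by
    refine le_antisymm hgdeg ?_
    have := le_totalDegree (p := g) (s := m) (mem_support_iff.2 hgm0)
    rwa [Finsupp.degree_eq_sum, ← Finsupp.sum_fintype m (fun _ e => e) (by simp)]
  obtain ⟨s, hs, hsg⟩ := combinatorial_nullstellensatz_exists_eval_nonzero g m hgm0 hgdeg' S
    (fun v => by rw [hS v]; exact Nat.lt_succ_self _)
  apply hsg
  rw [hg, map_sub, map_mul, map_mul, eval_C, eval_C, hQeval]
  by_cases hsc : s = c
  · subst hsc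
    rw [← hA]
    ring
  · rw [hf s hs hsc, mul_zero, zero_sub, neg_eq_zero]
    obtain ⟨v, hv⟩ : ∃ v, s v ≠ c v := by
      by_contra h
      push Not at h
      exact hsc (funext h)
    have : ∏ y ∈ (S v).erase (c v), (s v - y) = 0 :=
      Finset.prod_eq_zero (Finset.mem_erase.2 ⟨hv, hs v⟩) (sub_self _)
    rw [Finset.prod_eq_zero (Finset.mem_univ v) this, mul_zero]

/-- A polynomial invariant under translations, in a ring with `k = 0`: the coefficient at
`∏ x_v ^ (k - 1)` is zero. -/
theorem coeff_eq_zero (f : MvPolynomial V R) (hf : ∑ u, pderiv u f = 0) (k : ℕ) (hk : 2 ≤ k)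
    (hkR : (k : R) = 0) (m : V →₀ ℕ) (hm : ∀ v, m v = k - 1) (w : V) : coeff m f = 0 := by
  set d : V →₀ ℕ := m - Finsupp.single w 1 with hd
  have hdm : d + Finsupp.single w 1 = m := by
    ext v
    by_cases hv : v = w
    · subst hv
      simp [hd, hm]
      omega
    · simp [hd, Finsupp.single_eq_of_ne hv]
  have h := congrArg (coeff d) hf
  rw [coeff_sum, coeff_zero] at h
  rw [Finset.sum_eq_single w] at h
  · rw [coeff_pderiv, hdm] at h
    have h1 : ((d w : ℕ) : R) + 1 = ((k - 1 : ℕ) : R) := by
      have : d w + 1 = k - 1 := by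
        simp [hd, hm]
        omega
      rw [← this]
      push_cast
      ring
    have h2 : ((k - 1 : ℕ) : R) = -1 := by
      rw [Nat.cast_sub (by omega), hkR]
      simp
    rw [h1, h2] at h
    simpa using h
  · intro u _ hu
    rw [coeff_pderiv]
    have h1 : ((d u : ℕ) : R) + 1 = (k : R) := by
      have : d u + 1 = k := by
        simp [hd, hm, Finsupp.single_eq_of_ne hu]
        omega
      rw [← this]
      push_cast
      ring
    rw [h1, hkR, mul_zero]
  · intro h
    exact absurd (Finset.mem_univ w) h


/-- The graph polynomial of a finite set of unordered pairs. -/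
noncomputable def P (R : Type*) [CommRing R] (E : Finset (Sym2 V)) : MvPolynomial V R :=
  ∏ e ∈ E, (X (Quot.out e).1 - X (Quot.out e).2)

omit [Fintype V] [DecidableEq V] in
theorem totalDegree_P [Nontrivial R] (E : Finset (Sym2 V)) : (P R E).totalDegree ≤ E.card := by
  unfold P
  refine le_trans (totalDegree_finsetProd _ _) ?_
  refine le_trans (Finset.sum_le_card_nsmul _ _ 1 (fun e _ => ?_)) (by simp)
  refine le_trans (totalDegree_sub _ _) ?_
  simp

theorem sum_pderiv_P (E : Finset (Sym2 V)) : ∑ u, pderiv u (P R E) = 0 := by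
  classical
  have hD : ∀ g : MvPolynomial V R,
      (∑ u, pderiv u : Derivation R (MvPolynomial V R) (MvPolynomial V R)) g
        = ∑ u, pderiv u g := by
    intro g
    induction (Finset.univ : Finset V) using Finset.induction_on with
    | empty => simp
    | insert a s ha ih =>
      rw [Finset.sum_insert ha, Finset.sum_insert ha, Derivation.add_apply, ih]
  have hX : ∀ a : V, ∑ u, pderiv u (X a : MvPolynomial V R) = 1 := by
    intro a
    rw [Finset.sum_eq_single a]
    · simp
    · intro b _ hb
      exact pderiv_X_of_ne hb.symm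
    · intro h
      exact absurd (Finset.mem_univ a) h
  rw [← hD]
  unfold P
  induction E using Finset.induction_on with
  | empty => simp
  | insert e E he ih =>
    rw [Finset.prod_insert he, Derivation.leibniz, ih, smul_zero, zero_add, map_sub, hD, hD, hX,
      hX, sub_self, smul_zero]

omit [Fintype V] [DecidableEq V] in
theorem eval_P (E : Finset (Sym2 V)) (s : V → R) :
    eval s (P R E) = ∏ e ∈ E, (s (Quot.out e).1 - s (Quot.out e).2) := by
  unfold P
  simp [map_prod]

end Algebra

theorem eval_P_ne_zero {V : Type*} {R : Type*} [CommRing R] [IsDomain R] (G : SimpleGraph V)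
    (E : Finset (Sym2 V)) (hE : ∀ e, e ∈ E ↔ e ∈ G.edgeSet) (s : V → R) :
    eval s (P R E) ≠ 0 ↔ ∀ u v, G.Adj u v → s u ≠ s v := by
  rw [eval_P, Finset.prod_ne_zero_iff]
  constructor
  · intro h u v huv
    have h1 := h s(u, v) ((hE _).2 (by simpa using huv))
    have h2 : s((Quot.out s(u, v)).1, (Quot.out s(u, v)).2) = s(u, v) := Quot.out_eq _
    rw [Sym2.eq_iff] at h2
    rcases h2 with ⟨h3, h4⟩ | ⟨h3, h4⟩
    · rw [h3, h4] at h1
      exact sub_ne_zero.1 h1
    · rw [h3, h4] at h1
      exact (sub_ne_zero.1 h1).symm
  · intro h e he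
    have h1 : s((Quot.out e).1, (Quot.out e).2) = e := Quot.out_eq _
    have h2 : G.Adj (Quot.out e).1 (Quot.out e).2 := by
      have h3 := (hE e).1 he
      rw [← h1] at h3
      simpa using h3
    exact sub_ne_zero.2 (h _ _ h2)

/-- **Every graph whose average degree equals `2 k - 2` has property `M(k)`**, for all `k ≥ 2`:
for no assignment of lists of size `k` (of colours of any type) is there exactly one proper
colouring from the lists. -/
theorem result (k : ℕ) (hk : 2 ≤ k) (V : Type*) [Fintype V] [Nonempty V] (G : SimpleGraph V)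
    (havg : averageDegree G = 2 * (k : ℚ) - 2) (C : Type*) :
    ¬ UniquelyListColourable C G k := by
  classical
  rintro ⟨S, hS, c, hc, huniq⟩
  obtain ⟨p, hp, hpk⟩ := Nat.exists_prime_and_dvd (show k ≠ 1 by omega)
  have : Fact p.Prime := ⟨hp⟩
  let R := MvPolynomial C (ZMod p)
  let E : Finset (Sym2 V) := G.edgeSet.toFinite.toFinset
  have hE : ∀ e, e ∈ E ↔ e ∈ G.edgeSet := fun e => Set.Finite.mem_toFinset _
  have hcard : E.card = (k - 1) * Fintype.card V := by
    have h1 : (G.edgeSet.ncard : ℚ) = E.card := by
      rw [Set.ncard_eq_toFinset_card _ G.edgeSet.toFinite]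
    have hV : (0 : ℚ) < Fintype.card V := by
      exact_mod_cast Fintype.card_pos
    unfold averageDegree at havg
    rw [h1, div_eq_iff hV.ne'] at havg
    have h2 : (E.card : ℚ) = ((k : ℚ) - 1) * Fintype.card V := by linarith
    have h3 : ((k - 1 : ℕ) : ℚ) = (k : ℚ) - 1 := by
      rw [Nat.cast_sub (by omega)]
      simp
    rw [← h3] at h2
    exact_mod_cast h2
  have hinj : Function.Injective (X : C → R) := X_injective
  let S' : V → Finset R := fun v => (S v).image X
  let m : V →₀ ℕ := Finsupp.equivFunOnFinite.symm (fun _ => k - 1)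
  have hm : ∀ v, m v = k - 1 := fun v => rfl
  have hmdeg : m.degree = E.card := by
    rw [Finsupp.degree_eq_sum, hcard]
    simp [hm, mul_comm]
  have hkR : (k : R) = 0 := by
    obtain ⟨q, rfl⟩ := hpk
    push_cast
    rw [CharP.cast_eq_zero R p, zero_mul]
  have h0 : coeff m (P R E) = 0 :=
    coeff_eq_zero (P R E) (sum_pderiv_P E) k hk hkR m hm (Classical.arbitrary V)
  refine coeff_ne_zero (P R E) m S' (fun v => ?_) ?_ (fun v => X (c v)) (fun v => ?_) ?_ ?_ h0
  · rw [Finset.card_image_of_injective _ hinj, hS v, hm v]
    omega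
  · rw [hmdeg]
    exact totalDegree_P E
  · exact Finset.mem_image_of_mem _ (hc.1 v)
  · intro s hs hsc
    by_contra hne
    have h1 := (eval_P_ne_zero G E hE s).1 hne
    have h2 : ∀ v, ∃ t ∈ S v, (X t : R) = s v := fun v => Finset.mem_image.1 (hs v)
    choose t ht hts using h2
    have h3 : t = c := by
      refine huniq t ⟨ht, fun u v huv hEq => ?_⟩
      apply h1 u v huv
      rw [← hts u, ← hts v, hEq]
    apply hsc
    funext v
    rw [← hts v, h3]
  · rw [eval_P_ne_zero G E hE]
    intro u v huv hEq
    exact hc.2 u v huv (hinj hEq)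

end Pool.Agent.Results.MP_e14bb7_co.AverageDegree
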